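import Pool.Agent.MWHQ.Stmts

/-!
# Squad MWHQ, row DLB: deletion of an empty block
-/

set_option autoImplicit false

namespace Pool.Agent.MWHQ.H6

open Pool.Agent.Helper14_MV Pool.Agent.Helper2_MV Pool.Agent.MVO Pool.Agent.MWL Pool.Agent.MWS
  Pool.Agent.MWH

theorem deg_del (k j : ℕ) (a f : ℕ → ℕ) (hj : j ≤ k + 1) (ha : a j = 0)
    (hf : ∀ r, f r = if r < j then r else r + 1) :
    deg k (fun r => a (f r)) = deg (k + 1) a := by
  unfold deg
  have hinj : ∀ x ∈ Finset.range (k + 1), ∀ y ∈ Finset.range (k + 1), f x = f y → x = y := by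
    intro x _ y _ hxy
    rw [hf x, hf y] at hxy
    split_ifs at hxy <;> omega
  have himg : (Finset.range (k + 1)).image f = (Finset.range (k + 1 + 1)).erase j := by
    ext t
    simp only [Finset.mem_image, Finset.mem_range, Finset.mem_erase]
    constructor
    · rintro ⟨r, hr, rfl⟩
      rw [hf r]
      split_ifs <;> constructor <;> omega
    · rintro ⟨hne, ht⟩
      by_cases h : t < j
      · exact ⟨t, by omega, by rw [hf t, if_pos h]⟩
      · refine ⟨t - 1, by omega, ?_⟩
        rw [hf, if_neg (by omega)]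
        omega
  have hmem : j ∈ Finset.range (k + 1 + 1) := Finset.mem_range.2 (by omega)
  rw [← Finset.sum_erase_add (Finset.range (k + 1 + 1)) a hmem, ha, add_zero, ← himg,
    Finset.sum_image hinj]

theorem dm_del (k j : ℕ) (f g a : ℕ → ℕ) (ha : a j = 0)
    (hf : ∀ r, f r = if r < j then r else r + 1)
    (hg : ∀ r, g r = if r < j then r else r - 1) :
    Dm (k + 1) k g a (fun r => a (f r)) := by
  have huni : ∀ r j', g r = j' → r ≠ j → r = f j' := by
    intro r j' h hr
    rw [hg r] at h
    rw [hf j']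
    split_ifs at h ⊢ <;> omega
  intro j' _
  by_cases h2 : 2 ≤ a (f j')
  · exact Or.inl h2
  right
  by_cases h1 : a (f j') = 1
  · left
    refine ⟨h1, f j', by omega, ?_⟩
    intro r _ hgr hne
    by_cases hr : r = j
    · rw [hr]; exact ha
    · exact absurd (huni r j' hgr hr) hne
  · right
    intro r _ hgr
    by_cases hr : r = j
    · rw [hr]; exact ha
    · rw [huni r j' hgr hr]; omega

theorem dlb (hps : MWHP.Ps0Stmt) (hpin : PinStmt) : DlbStmt := by
  intro n β θ hβ hle k a b i j hV hj haj hbj f hf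
  have hij : i ≠ j := fun h => hV.ai (by rw [h]; exact haj)
  have hik := hV.ik
  obtain ⟨g, hg⟩ : ∃ g : ℕ → ℕ, ∀ r, g r = if r < j then r else r - 1 := ⟨_, fun _ => rfl⟩
  have hfg : f (g i) = i := by
    rw [hf, hg i]
    split_ifs <;> omega
  have hgk : g i ≤ k := by
    rw [hg i]
    split_ifs <;> omega
  have hfk : ∀ r ≤ k, f r ≤ k + 1 := by
    intro r hr
    rw [hf r]
    split_ifs <;> omega
  have hfinj : ∀ r s, f r = f s → r = s := by
    intro r s h
    rw [hf r, hf s] at h
    split_ifs at h <;> omega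
  have hV' : Vd k (fun r => a (f r)) (fun r => b (f r)) (g i) := by
    refine ⟨hgk, ?_, ?_, ?_, ?_, ?_⟩
    · show a (f (g i)) ≠ 0
      rw [hfg]; exact hV.ai
    · show b (f (g i)) ≠ 0
      rw [hfg]; exact hV.bi
    · intro r hr hne
      refine hV.un (f r) (hfk r hr) ?_
      intro h
      exact hne (hfinj r (g i) (h.trans hfg.symm))
    · rw [deg_del k j a f hj haj hf]; exact hV.da
    · rw [deg_del k j b f hj hbj hf]; exact hV.db
  refine ⟨g i, hgk, hfg, hV', ?_⟩
  intro s s' hs hs'
  have hs0 : Vs (fun r => a (f r)) (fun r => b (f r)) (g i) s := by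
    intro h
    show 2 ≤ a (f (g i)) ∨ 2 ≤ b (f (g i))
    rw [hfg]; exact hs h
  have hs0' : Vs (fun r => a (f r)) (fun r => b (f r)) (g i) s' := by
    intro h
    show 2 ≤ a (f (g i)) ∨ 2 ≤ b (f (g i))
    rw [hfg]; exact hs' h
  constructor
  · intro hT
    have hmap : BMap (k + 1) k g := by
      constructor
      · intro r t hrt _
        rw [hg r, hg t]
        split_ifs <;> omega
      · intro r hr
        rw [hg r]
        split_ifs <;> omega
    refine hps n β θ hβ hle (k + 1) k g a b _ _ i hmap hV hV'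
      (dm_del k j f g a haj hf hg) (dm_del k j f g b hbj hf hg) ?_ ?_ ?_ s s' hs hs' hT
    · intro r _ hgr hne
      have hr : r = j := by
        rw [hg r, hg i] at hgr
        split_ifs at hgr <;> omega
      rw [hr]; exact ⟨haj, hbj⟩
    · show a i = 1 ↔ a (f (g i)) = 1
      rw [hfg]
    · show b i = 1 ↔ b (f (g i)) = 1
      rw [hfg]
  · intro hT
    have h := hpin n β θ hβ hle k (k + 1) f (fun r => a (f r)) (fun r => b (f r)) a b (g i)
      (by
        intro r _
        rw [hf r, hf (r + 1)]
        split_ifs <;> omega)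
      (hfk k le_rfl) hV' (by rw [hfg]; exact hV)
      (fun r _ => ⟨id, id, id, id⟩) Iff.rfl Iff.rfl s s' hs0 hs0' hT
    rw [hfg] at h
    exact h

end Pool.Agent.MWHQ.H6
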